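import Pool.Agent.V11282.LD.Shift

set_option autoImplicit false

/-!
# `I + T` is topologically multiply recurrent for every unilateral weighted shift `T`

Finitely supported vectors correspond to polynomials `p` through the forward differences
`Δ^m p(0)` divided by products of weights; then `I + T` is the translation of the polynomial by
one. A polynomial which near the points `0, k, 2k, ..., Nk` is close to the translates of a given
polynomial gives a vector with the required orbit.
-/

namespace Pool.Agent.Results.MP_a8995d_an.MultiplyRecurrent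

open Filter Topology Polynomial Pool.Agent.V11282.LD

noncomputable section

/-- `S` is topologically multiply recurrent: for every nonempty open `U` and every `N ≥ 1` there
is `k ≥ 1` with `U ∩ S⁻ᵏ(U) ∩ ⋯ ∩ S⁻ᴺᵏ(U) ≠ ∅`. -/
def IsMultiplyRecurrent {X : Type} [TopologicalSpace X] (S : X → X) : Prop :=
  ∀ U : Set X, IsOpen U → U.Nonempty → ∀ N : ℕ, 1 ≤ N →
    ∃ k : ℕ, 1 ≤ k ∧ (⋂ j ∈ Finset.range (N + 1), S^[j * k] ⁻¹' U).Nonempty

/-- the Hilbert space `ℓ²(ℕ)` -/
abbrev H : Type := lp (fun _ : ℕ => ℂ) 2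

/-- bounded operators on `ℓ²(ℕ)` -/
abbrev Op : Type := H →L[ℂ] H

/-- `T` is the unilateral weighted backward shift with weights `w_1, w_2, ...` -/
def IsShift (w : ℕ → ℝ) (T : Op) : Prop :=
  ∀ (x : H) (n : ℕ), (T x) n = (w (n + 1) : ℂ) * x (n + 1)

/-- the operator `I + T` -/
def onePlus (T : Op) : Op := 1 + T

/-- iterated forward differences -/
def D (m : ℕ) (f : ℂ → ℂ) (a : ℂ) : ℂ := (fwdDiff 1)^[m] f a

theorem D_zero (f : ℂ → ℂ) (a : ℂ) : D 0 f a = f a := rfl

theorem D_succ (m : ℕ) (f : ℂ → ℂ) (a : ℂ) : D (m + 1) f a = D m f (a + 1) - D m f a := by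
  unfold D
  rw [Function.iterate_succ_apply']
  rfl

theorem D_poly {P : ℂ[X]} {n : ℕ} (hP : P.natDegree < n) (a : ℂ) : D n (fun z => P.eval z) a = 0 := by
  have h := Polynomial.fwdDiff_iter_eq_zero_of_degree_lt hP
  exact congrFun h a

/-- products of the weights -/
def W (w : ℕ → ℝ) (m : ℕ) : ℂ := ∏ i ∈ Finset.range m, ((w (i + 1) : ℝ) : ℂ)

theorem W_succ (w : ℕ → ℝ) (m : ℕ) : W w (m + 1) = W w m * ((w (m + 1) : ℝ) : ℂ) :=
  Finset.prod_range_succ _ _

theorem W_ne {w : ℕ → ℝ} (hw : ∀ n, 0 < w (n + 1)) (m : ℕ) : W w m ≠ 0 := by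
  unfold W
  rw [Finset.prod_ne_zero_iff]
  intro i _
  exact_mod_cast (hw i).ne'

/-- the vector attached to a function -/
def vec (w : ℕ → ℝ) (f : ℂ → ℂ) (M : ℕ) (a : ℂ) : ell ℂ :=
  ∑ m ∈ Finset.range (M + 1), lp.single (E := fun _ : ℕ => ℂ) 2 m (D m f a / W w m)

theorem vec_apply (w : ℕ → ℝ) {f : ℂ → ℂ} {M : ℕ} (hf : ∀ m, M < m → ∀ a, D m f a = 0) (a : ℂ)
    (n : ℕ) : vec w f M a n = D n f a / W w n := by
  unfold vec
  rw [lp.coeFn_sum, Finset.sum_apply]
  simp only [lp.single_apply]
  by_cases hn : n ∈ Finset.range (M + 1)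
  · rw [Finset.sum_eq_single n]
    · rw [Pi.single_eq_same]
    · intro m _ hmn
      rw [Pi.single_eq_of_ne hmn.symm]
    · intro h
      exact absurd hn h
  · rw [Finset.sum_eq_zero]
    · rw [Finset.mem_range, not_lt] at hn
      rw [hf n (by omega), zero_div]
    · intro m hm
      rw [Pi.single_eq_of_ne]
      rintro rfl
      exact hn hm

theorem step {w : ℕ → ℝ} (hw : ∀ n, 0 < w (n + 1)) {T : ell ℂ →L[ℂ] ell ℂ}
    (hT : ∀ x n, (T x) n = ((w (n + 1) : ℝ) : ℂ) * x (n + 1)) {f : ℂ → ℂ} {M : ℕ}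
    (hf : ∀ m, M < m → ∀ a, D m f a = 0) (a : ℂ) :
    (1 + T) (vec w f M a) = vec w f M (a + 1) := by
  ext n
  have h1 : ((1 + T) (vec w f M a)) n = vec w f M a n + T (vec w f M a) n := rfl
  rw [h1, hT, vec_apply w hf, vec_apply w hf, vec_apply w hf, D_succ, W_succ]
  have h2 := W_ne hw n
  have h3 : ((w (n + 1) : ℝ) : ℂ) ≠ 0 := by exact_mod_cast (hw n).ne'
  field_simp
  ring

theorem steps {w : ℕ → ℝ} (hw : ∀ n, 0 < w (n + 1)) {T : ell ℂ →L[ℂ] ell ℂ}
    (hT : ∀ x n, (T x) n = ((w (n + 1) : ℝ) : ℂ) * x (n + 1)) {f : ℂ → ℂ} {M : ℕ}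
    (hf : ∀ m, M < m → ∀ a, D m f a = 0) (r : ℕ) :
    ((1 + T) ^ r) (vec w f M 0) = vec w f M r := by
  induction r with
  | zero => simp
  | succ r ih =>
    rw [pow_succ']
    show (1 + T) (((1 + T) ^ r) (vec w f M 0)) = _
    rw [ih, step hw hT hf]
    push_cast
    rfl

/-- a polynomial with prescribed differences at zero -/
theorem exists_poly (J : ℕ) (c : ℕ → ℂ) : ∃ P : ℂ[X], P.natDegree ≤ J ∧
    ∀ m ≤ J, D m (fun z => P.eval z) 0 = c m := by
  induction J with
  | zero =>
    refine ⟨C (c 0), by simp, fun m hm => ?_⟩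
    obtain rfl : m = 0 := by omega
    rw [D_zero, eval_C]
  | succ J ih =>
    obtain ⟨P, hP, hPc⟩ := ih
    -- the leading term corrects the difference of order `J + 1`
    let Q : ℂ[X] := C (c (J + 1) / (J + 1).factorial) * descPochhammer ℂ (J + 1)
    have hQ : ∀ u : ℕ, u ≤ J → Q.eval (u : ℂ) = 0 := by
      intro u hu
      simp only [Q, eval_mul, eval_C]
      rw [descPochhammer_eval_eq_descFactorial, Nat.descFactorial_of_lt (by omega)]
      simp
    have hQ1 : Q.eval ((J + 1 : ℕ) : ℂ) = c (J + 1) := by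
      simp only [Q, eval_mul, eval_C]
      rw [descPochhammer_eval_eq_descFactorial, Nat.descFactorial_self]
      have : ((J + 1).factorial : ℂ) ≠ 0 := by exact_mod_cast Nat.factorial_ne_zero _
      field_simp
    have hD0 : ∀ m : ℕ, ∀ u : ℕ, m + u ≤ J → D m (fun z => Q.eval z) u = 0 := by
      intro m
      induction m with
      | zero =>
        intro u hu
        rw [D_zero]
        exact hQ u (by omega)
      | succ m ihm =>
        intro u hu
        have e1 := ihm (u + 1) (by omega)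
        have e2 := ihm u (by omega)
        rw [D_succ, e2]
        push_cast at e1
        rw [e1, sub_zero]
    have hD1 : ∀ m : ℕ, ∀ u : ℕ, m + u = J + 1 → D m (fun z => Q.eval z) u = c (J + 1) := by
      intro m
      induction m with
      | zero =>
        intro u hu
        obtain rfl : u = J + 1 := by omega
        rw [D_zero]
        exact hQ1
      | succ m ihm =>
        intro u hu
        have e1 := ihm (u + 1) (by omega)
        have e2 := hD0 m u (by omega)
        rw [D_succ, e2]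
        push_cast at e1
        rw [e1, sub_zero]
    have hQdeg : Q.natDegree ≤ J + 1 := by
      refine (natDegree_C_mul_le _ _).trans ?_
      rw [descPochhammer_natDegree]
    have hadd : ∀ m a, D m (fun z => (P + Q).eval z) a =
        D m (fun z => P.eval z) a + D m (fun z => Q.eval z) a := by
      intro m
      induction m with
      | zero =>
        intro a
        simp only [D_zero, eval_add]
      | succ m ihm =>
        intro a
        rw [D_succ, D_succ, D_succ, ihm, ihm]
        ring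
    refine ⟨P + Q, (natDegree_add_le _ _).trans (max_le (by omega) hQdeg), fun m hm => ?_⟩
    rw [hadd]
    rcases Nat.lt_or_ge m (J + 1) with h | h
    · have := hD0 m 0 (by omega)
      push_cast at this
      rw [hPc m (by omega), this, add_zero]
    · obtain rfl : m = J + 1 := by omega
      have := hD1 (J + 1) 0 (by omega)
      push_cast at this
      rw [this, D_poly (by omega), zero_add]

/-- the growth of a polynomial along an arithmetic progression -/
theorem growth {P : ℂ[X]} {J : ℕ} (hP : P.natDegree ≤ J) (α u : ℂ) :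
    Tendsto (fun k : ℕ => P.eval (α * k + u) * ((1 : ℂ) / k) ^ (J + 1)) atTop (𝓝 0) := by
  have hk : Tendsto (fun k : ℕ => ((1 : ℂ) / k)) atTop (𝓝 0) := tendsto_one_div_atTop_nhds_zero_nat
  have h1 : ∀ᶠ k : ℕ in atTop, P.eval (α * k + u) * ((1 : ℂ) / k) ^ (J + 1) =
      ∑ m ∈ Finset.range (P.natDegree + 1),
        P.coeff m * (α + u * (1 / k)) ^ m * ((1 : ℂ) / k) ^ (J + 1 - m) := by
    filter_upwards [eventually_ge_atTop 1] with k hk1
    have hk0 : (k : ℂ) ≠ 0 := by exact_mod_cast (by omega : k ≠ 0)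
    rw [eval_eq_sum_range, Finset.sum_mul]
    refine Finset.sum_congr rfl fun m hm => ?_
    have hm' : m ≤ J := by
      rw [Finset.mem_range] at hm
      omega
    have e1 : ((1 : ℂ) / k) ^ (J + 1) = ((1 : ℂ) / k) ^ m * ((1 : ℂ) / k) ^ (J + 1 - m) := by
      rw [← pow_add]
      congr 1
      omega
    rw [e1]
    have e2 : (α + u * (1 / k)) ^ m = (α * k + u) ^ m * ((1 : ℂ) / k) ^ m := by
      rw [← mul_pow]
      congr 1
      field_simp
    rw [e2]
    ring
  rw [tendsto_congr' h1]
  have h2 : (0 : ℂ) = ∑ m ∈ Finset.range (P.natDegree + 1),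
      P.coeff m * (α + u * 0) ^ m * (0 : ℂ) ^ (J + 1 - m) := by
    rw [Finset.sum_eq_zero]
    intro m hm
    rw [Finset.mem_range] at hm
    rw [zero_pow (by omega), mul_zero]
  conv => rhs; rw [h2]
  refine tendsto_finset_sum _ fun m _ => ?_
  exact (tendsto_const_nhds.mul ((tendsto_const_nhds.add (tendsto_const_nhds.mul hk)).pow m)).mul
    (hk.pow _)

/-- the localising polynomials -/
def hh (N J i : ℕ) : ℂ[X] :=
  ∏ l ∈ (Finset.range (N + 1)).erase i, (C (1 / ((i : ℂ) - l)) * (X - C (l : ℂ))) ^ (J + 1)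

theorem hh_eval (N J i : ℕ) (s : ℂ) : (hh N J i).eval s =
    ∏ l ∈ (Finset.range (N + 1)).erase i, (1 / ((i : ℂ) - l) * (s - l)) ^ (J + 1) := by
  unfold hh
  rw [eval_prod]
  simp

theorem hh_self (N J i : ℕ) : (hh N J i).eval (i : ℂ) = 1 := by
  rw [hh_eval]
  refine Finset.prod_eq_one fun l hl => ?_
  have : (i : ℂ) - l ≠ 0 := by
    rw [sub_ne_zero]
    have := Finset.ne_of_mem_erase hl
    exact_mod_cast this.symm
  field_simp
  simp

/-- the polynomial which looks like `P` near the points `j k` -/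
def pk (P : ℂ[X]) (N J k : ℕ) : ℂ[X] :=
  ∑ i ∈ Finset.range (N + 1), P.comp (X - C ((i : ℂ) * k)) * (hh N J i).comp (C (1 / (k : ℂ)) * X)

theorem pk_eval (P : ℂ[X]) (N J k : ℕ) (t : ℂ) : (pk P N J k).eval t =
    ∑ i ∈ Finset.range (N + 1), P.eval (t - i * k) * (hh N J i).eval (1 / (k : ℂ) * t) := by
  unfold pk
  rw [eval_finset_sum]
  simp

theorem hh_natDegree (N J i : ℕ) : (hh N J i).natDegree ≤ (N + 1) * (J + 1) := by
  unfold hh
  refine (natDegree_prod_le _ _).trans ?_
  refine (Finset.sum_le_card_nsmul _ _ (J + 1) fun l _ => ?_).trans ?_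
  · refine natDegree_pow_le.trans ?_
    have : (C (1 / ((i : ℂ) - l)) * (X - C (l : ℂ))).natDegree ≤ 1 :=
      (natDegree_C_mul_le _ _).trans (natDegree_X_sub_C_le _)
    nlinarith
  · rw [smul_eq_mul]
    refine Nat.mul_le_mul_right _ ?_
    refine (Finset.card_le_card (Finset.erase_subset _ _)).trans ?_
    simp

theorem pk_natDegree {P : ℂ[X]} {J : ℕ} (hP : P.natDegree ≤ J) (N k : ℕ) :
    (pk P N J k).natDegree ≤ J + (N + 1) * (J + 1) := by
  unfold pk
  refine natDegree_sum_le_of_forall_le _ _ fun i _ => ?_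
  refine natDegree_mul_le.trans (add_le_add ?_ ?_)
  · refine natDegree_comp_le.trans ?_
    have : (X - C ((i : ℂ) * k)).natDegree ≤ 1 := natDegree_X_sub_C_le _
    nlinarith
  · refine natDegree_comp_le.trans ?_
    have h1 : (C (1 / (k : ℂ)) * X : ℂ[X]).natDegree ≤ 1 :=
      (natDegree_C_mul_le _ _).trans natDegree_X_le
    have h2 := hh_natDegree N J i
    nlinarith

/-- convergence of the values -/
theorem value_lim {P : ℂ[X]} {J : ℕ} (hP : P.natDegree ≤ J) {N j : ℕ} (hj : j ≤ N) (u : ℕ) :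
    Tendsto (fun k : ℕ => (pk P N J k).eval ((j : ℂ) * k + u)) atTop (𝓝 (P.eval (u : ℂ))) := by
  have hk : Tendsto (fun k : ℕ => ((1 : ℂ) / k)) atTop (𝓝 0) := tendsto_one_div_atTop_nhds_zero_nat
  simp only [pk_eval]
  have hmem : j ∈ Finset.range (N + 1) := Finset.mem_range.2 (by omega)
  simp only [← Finset.add_sum_erase _ _ hmem]
  have e0 : P.eval (u : ℂ) = P.eval (u : ℂ) * (hh N J j).eval ((j : ℂ) + u * 0) +
      ∑ i ∈ (Finset.range (N + 1)).erase j, 0 := by
    rw [mul_zero, add_zero, hh_self, mul_one, Finset.sum_const_zero, add_zero]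
  rw [e0]
  have harg : ∀ᶠ k : ℕ in atTop, 1 / (k : ℂ) * ((j : ℂ) * k + u) = j + u * (1 / k) := by
    filter_upwards [eventually_ge_atTop 1] with k hk1
    have hk0 : (k : ℂ) ≠ 0 := by exact_mod_cast (by omega : k ≠ 0)
    field_simp
  refine Tendsto.add ?_ (tendsto_finset_sum _ fun i hi => ?_)
  · have h1 : ∀ᶠ k : ℕ in atTop, P.eval ((j : ℂ) * k + u - j * k) *
        (hh N J j).eval (1 / (k : ℂ) * ((j : ℂ) * k + u)) =
        P.eval (u : ℂ) * (hh N J j).eval ((j : ℂ) + u * (1 / k)) := by
      filter_upwards [harg] with k h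
      rw [h]
      congr 2
      ring
    rw [tendsto_congr' h1]
    refine tendsto_const_nhds.mul ?_
    exact ((hh N J j).continuous.tendsto _).comp
      (tendsto_const_nhds.add (tendsto_const_nhds.mul hk))
  · have hij : i ≠ j := Finset.ne_of_mem_erase hi
    have hjm : j ∈ (Finset.range (N + 1)).erase i := Finset.mem_erase.2 ⟨hij.symm, hmem⟩
    have hne : (i : ℂ) - j ≠ 0 := by
      rw [sub_ne_zero]
      exact_mod_cast hij
    have h1 : ∀ᶠ k : ℕ in atTop, P.eval ((j : ℂ) * k + u - i * k) *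
        (hh N J i).eval (1 / (k : ℂ) * ((j : ℂ) * k + u)) =
        (P.eval (((j : ℂ) - i) * k + u) * ((1 : ℂ) / k) ^ (J + 1)) *
          ((1 / ((i : ℂ) - j) * u) ^ (J + 1) *
          ∏ l ∈ ((Finset.range (N + 1)).erase i).erase j,
            (1 / ((i : ℂ) - l) * ((j + u * (1 / k)) - l)) ^ (J + 1)) := by
      filter_upwards [harg] with k h
      rw [h, hh_eval, ← Finset.mul_prod_erase _ _ hjm]
      have e1 : ((j : ℂ) * k + u - i * k) = ((j : ℂ) - i) * k + u := by ring
      have e2 : (1 / ((i : ℂ) - j) * ((j : ℂ) + u * (1 / k) - j)) ^ (J + 1) =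
          ((1 : ℂ) / k) ^ (J + 1) * (1 / ((i : ℂ) - j) * u) ^ (J + 1) := by
        rw [← mul_pow]
        congr 1
        ring
      rw [e1, e2]
      ring
    rw [tendsto_congr' h1]
    have h2 := growth hP ((j : ℂ) - i) u
    have h3 : Tendsto (fun k : ℕ => ((1 / ((i : ℂ) - j) * u) ^ (J + 1) *
          ∏ l ∈ ((Finset.range (N + 1)).erase i).erase j,
            (1 / ((i : ℂ) - l) * ((j + u * (1 / k)) - l)) ^ (J + 1))) atTop
        (𝓝 ((1 / ((i : ℂ) - j) * u) ^ (J + 1) *
          ∏ l ∈ ((Finset.range (N + 1)).erase i).erase j,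
            (1 / ((i : ℂ) - l) * ((j + u * 0) - l)) ^ (J + 1))) := by
      refine tendsto_const_nhds.mul (tendsto_finset_prod _ fun l _ => ?_)
      exact (tendsto_const_nhds.mul
        ((tendsto_const_nhds.add (tendsto_const_nhds.mul hk)).sub tendsto_const_nhds)).pow _
    have h4 := h2.mul h3
    rwa [zero_mul] at h4

theorem diff_lim {P : ℂ[X]} {J : ℕ} (hP : P.natDegree ≤ J) {N j : ℕ} (hj : j ≤ N) (m : ℕ) :
    ∀ u : ℕ, Tendsto (fun k : ℕ => D m (fun z => (pk P N J k).eval z) ((j : ℂ) * k + u)) atTop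
      (𝓝 (D m (fun z => P.eval z) u)) := by
  induction m with
  | zero =>
    intro u
    simp only [D_zero]
    exact value_lim hP hj u
  | succ m ih =>
    intro u
    simp only [D_succ]
    have h1 := ih (u + 1)
    push_cast at h1
    have e : ∀ k : ℕ, (j : ℂ) * k + (u + 1) = (j : ℂ) * k + u + 1 := fun k => by ring
    simp only [e] at h1
    exact h1.sub (ih u)

theorem iter_eq (T : Op) (n : ℕ) (x : H) : (fun x : H => onePlus T x)^[n] x = ((1 + T) ^ n) x := by
  induction n with
  | zero => rfl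
  | succ n ih =>
    rw [Function.iterate_succ_apply', ih, pow_succ']
    rfl

/-- **Main theorem.** For every bounded sequence of positive weights the unilateral weighted
backward shift `T` on `ℓ²(ℕ)` exists as a bounded operator, and `I + T` is topologically multiply
recurrent. -/
theorem result (w : ℕ → ℝ) (hw : ∀ n, 0 < w (n + 1)) (hb : ∃ C, ∀ n, w (n + 1) ≤ C) :
    ∃ T : Op, IsShift w T ∧ IsMultiplyRecurrent (fun x : H => onePlus T x) := by
  obtain ⟨B, hB⟩ := hb
  obtain ⟨T, hT⟩ := exists_shift (𝕜 := ℂ) (fun n => if n = 0 then 0 else w n) (max B 0) (by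
    intro n
    rcases n with - | n
    · simp
    · simp only [Nat.succ_ne_zero, if_false]
      rw [abs_of_pos (hw n)]
      exact (hB n).trans (le_max_left _ _))
  have hT' : ∀ x n, (T x) n = ((w (n + 1) : ℝ) : ℂ) * x (n + 1) := by
    intro x n
    rw [hT]
    simp
  refine ⟨T, hT', ?_⟩
  rintro U hU ⟨x, hx⟩ N -
  obtain ⟨J, hJ⟩ := exists_trunc hU hx
  obtain ⟨P, hP, hPc⟩ := exists_poly J (fun m => W w m * x m)
  set M := J + (N + 1) * (J + 1) with hM
  have hDP : ∀ m, M < m → ∀ a, D m (fun z => P.eval z) a = 0 := fun m hm a => D_poly (by omega) a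
  have hvec : vec w (fun z => P.eval z) M 0 =
      ∑ m ∈ Finset.range (J + 1), lp.single (E := fun _ : ℕ => ℂ) 2 m (x m) := by
    ext n
    rw [vec_apply w hDP, lp.coeFn_sum, Finset.sum_apply]
    simp only [lp.single_apply]
    by_cases hn : n ∈ Finset.range (J + 1)
    · rw [Finset.sum_eq_single n]
      · rw [Pi.single_eq_same, hPc n (by rw [Finset.mem_range] at hn; omega)]
        have := W_ne hw n
        field_simp
      · intro m _ hmn
        rw [Pi.single_eq_of_ne hmn.symm]
      · intro h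
        exact absurd hn h
    · rw [Finset.sum_eq_zero]
      · rw [Finset.mem_range] at hn
        rw [D_poly (by omega), zero_div]
      · intro m hm
        rw [Pi.single_eq_of_ne]
        rintro rfl
        exact hn hm
  have hlim : ∀ j ≤ N, Tendsto (fun k : ℕ => vec w (fun z => (pk P N J k).eval z) M ((j : ℂ) * k))
      atTop (𝓝 (vec w (fun z => P.eval z) M 0)) := by
    intro j hj
    unfold vec
    refine tendsto_finset_sum _ fun m _ => ?_
    have h1 := diff_lim hP hj m 0
    push_cast at h1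
    simp only [add_zero] at h1
    have hcont : Continuous (fun a : ℂ => lp.single (E := fun _ : ℕ => ℂ) 2 m a) :=
      (lp.isometry_single (E := fun _ : ℕ => ℂ) (p := 2) m).continuous
    exact (hcont.tendsto _).comp (h1.div_const _)
  have hev : ∀ᶠ k : ℕ in atTop, ∀ j ∈ Finset.range (N + 1),
      vec w (fun z => (pk P N J k).eval z) M ((j : ℂ) * k) ∈ U := by
    rw [Filter.eventually_all_finset]
    intro j hj
    refine (hlim j (by rw [Finset.mem_range] at hj; omega)).eventually (hU.mem_nhds ?_)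
    rw [hvec]
    exact hJ
  obtain ⟨k, hk, hk1⟩ := (hev.and (eventually_ge_atTop 1)).exists
  refine ⟨k, hk1, vec w (fun z => (pk P N J k).eval z) M 0, ?_⟩
  have hDk : ∀ m, M < m → ∀ a, D m (fun z => (pk P N J k).eval z) a = 0 := fun m hm a =>
    D_poly ((pk_natDegree hP N k).trans_lt hm) a
  simp only [Set.mem_iInter, Set.mem_preimage]
  intro j hj
  have h1 := steps hw hT' hDk (j * k)
  have h0 : (fun x : H => onePlus T x)^[j * k] (vec w (fun z => (pk P N J k).eval z) M 0) =
      ((1 + T) ^ (j * k)) (vec w (fun z => (pk P N J k).eval z) M 0) := iter_eq T _ _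
  rw [h0, h1]
  push_cast
  exact hk j hj

end

end Pool.Agent.Results.MP_a8995d_an.MultiplyRecurrent
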